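import Mathlib

set_option autoImplicit false

namespace Pool.Agent.H373Z.AQ

open Filter Topology

/-- The data used in the contraction. -/
structure Sys (M : Type) [Ring M] [MetricSpace M] where
  A : ℕ → Subring M
  p : ℕ → M
  s : ℕ → M
  t : ℕ → M
  dist_sub : ∀ x y : M, dist x y = dist (x - y) 0
  add_le : ∀ x y : M, dist (x + y) 0 ≤ dist x 0 + dist y 0
  mul_l : ∀ x y : M, dist (x * y) 0 ≤ dist x 0
  mul_r : ∀ x y : M, dist (x * y) 0 ≤ dist y 0
  one_le : dist (1 : M) 0 ≤ 1
  mono : Monotone A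
  dense : ∀ x : M, ∀ ε > 0, ∃ n, ∃ y ∈ A n, dist x y < ε
  p_idem : ∀ k, p k * p k = p k
  p_mem : ∀ k, p k ∈ A (k + 1)
  p_comm : ∀ k n, n ≤ k → ∀ y ∈ A n, Commute (p k) y
  s_mem : ∀ k, s k ∈ A (k + 1)
  s_sq : ∀ k, s k * s k = 1
  s_p : ∀ k, s k * p k * s k = 1 - p k
  t_mem : ∀ n, t n ∈ A (2 * n + 2)
  t_sq : ∀ n, t n * t n = 1
  t_comm : ∀ n, ∀ y ∈ A n, Commute (t n) y
  t_p : ∀ n, p n * t n = t n * p (2 * n + 1)
  t_p' : ∀ n q, q ≠ n → q ≠ 2 * n + 1 → Commute (p q) (t n)
  split : ∀ n, ∀ e ∈ A n, ∀ z ∈ A n, e * e = e → Commute e z →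
    dist (e * z) 0 + dist ((1 - e) * z) 0 ≤ dist z 0

namespace Sys

variable {M : Type} [Ring M] [MetricSpace M] (S : Sys M)

include S in
lemma dist_le_one (x y : M) : dist x y ≤ 1 := by
  have := S.mul_r (x - y) 1
  rw [mul_one] at this
  rw [S.dist_sub]; exact this.trans S.one_le

lemma half (k : ℕ) (z : M) (hz : z ∈ ⨆ n, S.A n) (h1 : Commute (S.p k) z)
    (h2 : Commute (S.s k) z) :
    dist (S.p k * z) 0 ≤ dist z 0 / 2 ∧ dist ((1 - S.p k) * z) 0 ≤ dist z 0 / 2 := by
  obtain ⟨n, hn⟩ := (Subring.mem_iSup_of_directed S.mono.directed_le).mp hz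
  have h3 := S.split (max n (k + 1)) (S.p k) (S.mono (le_max_right _ _) (S.p_mem k)) z
    (S.mono (le_max_left _ _) hn) (S.p_idem k) h1
  have h4 : (1 - S.p k) * z = S.s k * ((S.p k * z) * S.s k) := by
    rw [← S.s_p k, mul_assoc (S.p k) z, ← h2.eq]; noncomm_ring
  have h5 : S.p k * z = S.s k * (((1 - S.p k) * z) * S.s k) := by
    rw [h4]
    calc S.p k * z = (S.s k * S.s k) * (S.p k * z) * (S.s k * S.s k) := by rw [S.s_sq]; simp
      _ = _ := by noncomm_ring
  have h6 : dist ((1 - S.p k) * z) 0 ≤ dist (S.p k * z) 0 := by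
    rw [h4]; exact (S.mul_r _ _).trans (S.mul_l _ _)
  have h7 : dist (S.p k * z) 0 ≤ dist ((1 - S.p k) * z) 0 := by
    conv_lhs => rw [h5]
    exact (S.mul_r _ _).trans (S.mul_l _ _)
  constructor <;> linarith

open Classical in
/-- finite approximations of a nest of idempotents -/
noncomputable def nestN (c : ℕ → ℕ) : ℕ → ℕ → ℝ → M
  | 0, _, t => if t ≤ 0 then 0 else 1
  | n + 1, k, t => (1 - S.p (c k)) * nestN c n (k + 1) (2 * t) +
      S.p (c k) * nestN c n (k + 1) (2 * t - 1)

lemma nestN_mem (c : ℕ → ℕ) (T : Subring M) (n : ℕ) : ∀ k t, (∀ j, k ≤ j → S.p (c j) ∈ T) →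
    S.nestN c n k t ∈ T := by
  induction n with
  | zero =>
    intro k t _
    simp only [nestN]
    split_ifs
    · exact T.zero_mem
    · exact T.one_mem
  | succ n ih =>
    intro k t h
    simp only [nestN]
    have h' : ∀ j, k + 1 ≤ j → S.p (c j) ∈ T := fun j hj => h j (by omega)
    exact T.add_mem (T.mul_mem (T.sub_mem T.one_mem (h k le_rfl)) (ih _ _ h'))
      (T.mul_mem (h k le_rfl) (ih _ _ h'))

lemma nestN_comm (c : ℕ → ℕ) (n k : ℕ) (t : ℝ) (y : M)
    (h : ∀ j, k ≤ j → Commute (S.p (c j)) y) : Commute (S.nestN c n k t) y := by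
  have := S.nestN_mem c (Subring.centralizer {y}) n k t (fun j hj => by
    rw [Subring.mem_centralizer_iff]
    rintro _ rfl
    exact (h j hj).eq.symm)
  rw [Subring.mem_centralizer_iff] at this
  exact (this y rfl).symm

lemma nestN_zero (c : ℕ → ℕ) (n : ℕ) : ∀ k t, t ≤ 0 → S.nestN c n k t = 0 := by
  induction n with
  | zero => intro k t h; simp [nestN, h]
  | succ n ih =>
    intro k t h
    simp only [nestN]
    rw [ih _ _ (by linarith), ih _ _ (by linarith)]; simp

lemma nestN_one (c : ℕ → ℕ) (n : ℕ) : ∀ k t, 1 ≤ t → S.nestN c n k t = 1 := by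
  induction n with
  | zero => intro k t h; simp only [nestN]; rw [if_neg (by linarith)]
  | succ n ih =>
    intro k t h
    simp only [nestN]
    rw [ih _ _ (by linarith), ih _ _ (by linarith)]; simp

lemma comm_next {c : ℕ → ℕ} (hc : StrictMono c) (n k : ℕ) (t : ℝ) (y : M)
    (hy : y ∈ S.A (c k + 1)) : Commute y (S.nestN c n (k + 1) t) :=
  (S.nestN_comm c n (k + 1) t y fun j hj =>
    S.p_comm _ _ (Nat.succ_le_of_lt (hc (by omega))) y hy).symm

lemma nestN_idem {c : ℕ → ℕ} (hc : StrictMono c) (n : ℕ) :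
    ∀ k t, S.nestN c n k t * S.nestN c n k t = S.nestN c n k t := by
  induction n with
  | zero => intro k t; simp only [nestN]; split_ifs <;> simp
  | succ n ih =>
    intro k t
    simp only [nestN]
    have ha := (S.comm_next hc n k (2 * t) _ (S.p_mem (c k))).eq
    have hb := (S.comm_next hc n k (2 * t - 1) _ (S.p_mem (c k))).eq
    have ha2 := ih (k + 1) (2 * t)
    have hb2 := ih (k + 1) (2 * t - 1)
    have hp := S.p_idem (c k)
    generalize S.nestN c n (k + 1) (2 * t) = a at *
    generalize S.nestN c n (k + 1) (2 * t - 1) = b at *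
    generalize S.p (c k) = p at *
    have e1 : ∀ x : M, a * (p * x) = p * (a * x) := fun x => by rw [← mul_assoc, ← ha, mul_assoc]
    have e2 : ∀ x : M, b * (p * x) = p * (b * x) := fun x => by rw [← mul_assoc, ← hb, mul_assoc]
    have e3 : ∀ x : M, p * (p * x) = p * x := fun x => by rw [← mul_assoc, hp]
    simp only [add_mul, mul_add, sub_mul, mul_sub, one_mul, mul_assoc, e1, e2, e3, ha2, hb2]
    abel

/-- clamp -/
noncomputable def cl (t : ℝ) : ℝ := max 0 (min t 1)

open Classical in
/-- error term -/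
noncomputable def er (n : ℕ) (t : ℝ) : ℝ := if 0 < t ∧ t < 1 then (1 / 2) ^ n else 0

lemma er_nonneg (n : ℕ) (t : ℝ) : 0 ≤ er n t := by
  unfold er; split_ifs <;> positivity

lemma er_le (n : ℕ) (t : ℝ) : er n t ≤ (1 / 2) ^ n := by
  unfold er; split_ifs
  · exact le_rfl
  · positivity

lemma er_step (n : ℕ) (t : ℝ) : er n (2 * t) + er n (2 * t - 1) ≤ 2 * er (n + 1) t := by
  have h : (0 : ℝ) < (1 / 2) ^ n := by positivity
  unfold er
  rw [pow_succ]
  split_ifs with h1 h2 h3 h4 h5 h6 h7
  · exfalso; linarith [h1.2, h2.1]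
  · exfalso; linarith [h1.2, h2.1]
  · linarith
  · exact absurd ⟨by linarith [h1.1], by linarith [h1.2]⟩ h4
  · linarith
  · exact absurd ⟨by linarith [h5.1], by linarith [h5.2]⟩ h6
  · linarith
  · linarith

lemma cl_mono : Monotone cl := fun _ _ h => max_le_max le_rfl (min_le_min h le_rfl)

lemma cl_add (t : ℝ) : cl (2 * t) + cl (2 * t - 1) = 2 * cl t := by
  unfold cl
  simp only [max_def, min_def]
  split_ifs <;> linarith

lemma cl_step (t s : ℝ) :
    |cl (2 * t) - cl (2 * s)| + |cl (2 * t - 1) - cl (2 * s - 1)| ≤ 2 * |cl t - cl s| := by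
  have h1 := cl_add t
  have h2 := cl_add s
  rcases le_total t s with h | h
  · rw [abs_of_nonpos (sub_nonpos.mpr (cl_mono (by linarith))),
      abs_of_nonpos (sub_nonpos.mpr (cl_mono (by linarith))),
      abs_of_nonpos (sub_nonpos.mpr (cl_mono h))]
    linarith
  · rw [abs_of_nonneg (sub_nonneg.mpr (cl_mono (by linarith))),
      abs_of_nonneg (sub_nonneg.mpr (cl_mono (by linarith))),
      abs_of_nonneg (sub_nonneg.mpr (cl_mono h))]
    linarith

lemma cl_lip (t s : ℝ) : |cl t - cl s| ≤ |t - s| := by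
  unfold cl
  simp only [max_def, min_def]
  split_ifs <;> rw [abs_le] <;> constructor <;>
    linarith [le_abs_self (t - s), neg_abs_le (t - s)]

lemma nestN_dist {c : ℕ → ℕ} (hc : StrictMono c) (j n : ℕ) : ∀ k t s,
    dist (S.nestN c n k t) (S.nestN c (j + n) k s) ≤ |cl t - cl s| + er n t + er n s := by
  induction n with
  | zero =>
    intro k t s
    have h0 := S.dist_le_one (S.nestN c 0 k t) (S.nestN c (j + 0) k s)
    have h1 := er_nonneg 0 t
    have h2 := er_nonneg 0 s
    have h3 := abs_nonneg (cl t - cl s)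
    by_cases ht : 0 < t ∧ t < 1
    · have : er 0 t = 1 := by simp [er, ht]
      linarith
    by_cases hs : 0 < s ∧ s < 1
    · have : er 0 s = 1 := by simp [er, hs]
      linarith
    have ht' : t ≤ 0 ∨ 1 ≤ t := by by_contra h; push Not at h; exact ht h
    have hs' : s ≤ 0 ∨ 1 ≤ s := by by_contra h; push Not at h; exact hs h
    have c0 : ∀ x : ℝ, x ≤ 0 → cl x = 0 := fun x hx =>
      max_eq_left ((min_le_left _ _).trans hx)
    have c1 : ∀ x : ℝ, 1 ≤ x → cl x = 1 := fun x hx => by
      unfold cl; rw [min_eq_right hx]; simp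
    rcases ht' with ht' | ht' <;> rcases hs' with hs' | hs'
    · rw [S.nestN_zero _ _ _ _ ht', S.nestN_zero _ _ _ _ hs', dist_self]; linarith
    · rw [c0 _ ht', c1 _ hs']; simp only [zero_sub, abs_neg, abs_one]; linarith
    · rw [c1 _ ht', c0 _ hs']; simp only [sub_zero, abs_one]; linarith
    · rw [S.nestN_one _ _ _ _ ht', S.nestN_one _ _ _ _ hs', dist_self]; linarith
  | succ n ih =>
    intro k t s
    have hm : ∀ m x, S.nestN c m (k + 1) x ∈ ⨆ n, S.A n := fun m x =>
      S.nestN_mem c _ m _ x fun i _ => le_iSup S.A _ (S.p_mem _)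
    have key : ∀ x y, dist (S.p (c k) * (S.nestN c n (k + 1) x - S.nestN c (j + n) (k + 1) y)) 0 ≤
        dist (S.nestN c n (k + 1) x - S.nestN c (j + n) (k + 1) y) 0 / 2 ∧
        dist ((1 - S.p (c k)) * (S.nestN c n (k + 1) x - S.nestN c (j + n) (k + 1) y)) 0 ≤
        dist (S.nestN c n (k + 1) x - S.nestN c (j + n) (k + 1) y) 0 / 2 := fun x y =>
      S.half _ _ (Subring.sub_mem _ (hm _ _) (hm _ _))
        ((S.comm_next hc _ _ _ _ (S.p_mem _)).sub_right (S.comm_next hc _ _ _ _ (S.p_mem _)))
        ((S.comm_next hc _ _ _ _ (S.s_mem _)).sub_right (S.comm_next hc _ _ _ _ (S.s_mem _)))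
    have h1 := (key (2 * t) (2 * s)).2
    have h2 := (key (2 * t - 1) (2 * s - 1)).1
    have h3 := ih (k + 1) (2 * t) (2 * s)
    have h4 := ih (k + 1) (2 * t - 1) (2 * s - 1)
    rw [S.dist_sub] at h3 h4
    have h5 := S.add_le
      ((1 - S.p (c k)) * (S.nestN c n (k + 1) (2 * t) - S.nestN c (j + n) (k + 1) (2 * s)))
      (S.p (c k) * (S.nestN c n (k + 1) (2 * t - 1) - S.nestN c (j + n) (k + 1) (2 * s - 1)))
    have h6 : S.nestN c (n + 1) k t - S.nestN c (j + (n + 1)) k s =
      (1 - S.p (c k)) * (S.nestN c n (k + 1) (2 * t) - S.nestN c (j + n) (k + 1) (2 * s)) +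
      S.p (c k) * (S.nestN c n (k + 1) (2 * t - 1) - S.nestN c (j + n) (k + 1) (2 * s - 1)) := by
      rw [← add_assoc]
      simp only [nestN]
      noncomm_ring
    rw [S.dist_sub, h6]
    linarith [cl_step t s, er_step n t, er_step n s]

variable [CompleteSpace M] [IsTopologicalRing M]

lemma exists_nest {c : ℕ → ℕ} (hc : StrictMono c) : ∃ e : ℝ → M, Continuous e ∧ e 0 = 0 ∧
    e 1 = 1 ∧ (∀ t, e t * e t = e t) ∧
    ∀ y, (∀ j, Commute (S.p (c j)) y) → ∀ t, Commute (e t) y := by
  have hcau : ∀ t, CauchySeq fun n => S.nestN c n 0 t := fun t =>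
    cauchySeq_of_le_geometric (1 / 2) 2 (by norm_num) fun n => by
      have := S.nestN_dist hc 1 n 0 t t
      rw [add_comm 1 n, sub_self, abs_zero] at this
      linarith [er_le n t]
  choose e he using fun t => cauchySeq_tendsto_of_complete (hcau t)
  have hg : Tendsto (fun n : ℕ => (1 / 2 : ℝ) ^ n) atTop (𝓝 0) :=
    tendsto_pow_atTop_nhds_zero_of_lt_one (by norm_num) (by norm_num)
  refine ⟨e, ?_, ?_, ?_, ?_, ?_⟩
  · refine (LipschitzWith.of_dist_le_mul (K := 1) fun t s => ?_).continuous
    have h1 : Tendsto (fun n : ℕ => |t - s| + (1 / 2 : ℝ) ^ n + (1 / 2 : ℝ) ^ n) atTop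
        (𝓝 (|t - s| + 0 + 0)) := (tendsto_const_nhds.add hg).add hg
    have h2 := le_of_tendsto_of_tendsto' ((he t).dist (he s)) h1 fun n => by
      have := S.nestN_dist hc 0 n 0 t s
      rw [zero_add] at this
      linarith [er_le n t, er_le n s, cl_lip t s]
    simpa [Real.dist_eq] using h2
  · refine tendsto_nhds_unique (he 0) ?_
    simp only [S.nestN_zero _ _ _ _ le_rfl]
    exact tendsto_const_nhds
  · refine tendsto_nhds_unique (he 1) ?_
    simp only [S.nestN_one _ _ _ _ le_rfl]
    exact tendsto_const_nhds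
  · intro t
    refine tendsto_nhds_unique ((he t).mul (he t)) ?_
    simp only [S.nestN_idem hc]
    exact he t
  · intro y hy t
    refine tendsto_nhds_unique ((he t).mul_const y) ?_
    have : (fun n => S.nestN c n 0 t * y) = fun n => y * S.nestN c n 0 t :=
      funext fun n => (S.nestN_comm c n 0 t y fun j _ => hy j).eq
    rw [this]
    exact (he t).const_mul y

lemma exists_w (n : ℕ) : ∃ w : ℝ → M, Continuous w ∧ w 0 = 1 ∧ w 1 = S.t n ∧
    (∀ r, w r * w r = 1) ∧ ∀ y ∈ S.A n, ∀ r, Commute (w r) y := by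
  obtain ⟨e, h1, h2, h3, h4, h5⟩ := S.exists_nest (c := fun j => 2 * n + 2 + j)
    (fun a b h => by simpa using h)
  have h6 : ∀ y ∈ S.A (2 * n + 2), ∀ r, Commute (e r) y := fun y hy r =>
    h5 y (fun j => S.p_comm _ _ (by omega) y hy) r
  refine ⟨fun r => S.t n * e r + (1 - e r), by fun_prop, by simp [h2], by simp [h3], ?_, ?_⟩
  · intro r
    have ha := (h6 _ (S.t_mem n) r).eq
    have hb := h4 r
    have hc := S.t_sq n
    beta_reduce
    generalize e r = a at *
    generalize S.t n = b at *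
    have e1 : ∀ x : M, a * (b * x) = b * (a * x) := fun x => by rw [← mul_assoc, ha, mul_assoc]
    have e3 : ∀ x : M, b * (b * x) = x := fun x => by rw [← mul_assoc, hc, one_mul]
    simp only [add_mul, mul_add, sub_mul, mul_sub, one_mul, mul_one, mul_assoc, e1, e3, hb]
    abel
  · intro y hy r
    have h7 := h6 y (S.mono (by omega) hy) r
    exact ((S.t_comm n y hy).mul_left h7).add_left ((Commute.one_left y).sub_left h7)

/-- ordered products -/
def prodL (w : ℕ → ℝ → M) : ℕ → ℝ → M
  | 0, _ => 1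
  | n + 1, r => prodL w n r * w n r

/-- ordered products, reversed -/
def prodR (w : ℕ → ℝ → M) : ℕ → ℝ → M
  | 0, _ => 1
  | n + 1, r => w n r * prodR w n r

lemma exists_alpha : ∃ α : ℝ → M →* M, Continuous (fun q : ℝ × M => α q.1 q.2) ∧
    (∀ x, α 0 x = x) ∧ ∀ j x, Commute (S.p (2 * j)) (α 1 x) := by
  choose w hw hw0 hw1 hwsq hwc using S.exists_w
  have hLR : ∀ n r, prodL w n r * prodR w n r = 1 := by
    intro n r
    induction n with
    | zero => simp [prodL, prodR]
    | succ n ih =>
      simp only [prodL, prodR]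
      rw [mul_assoc, ← mul_assoc (w n r), hwsq, one_mul, ih]
  have hRL : ∀ n r, prodR w n r * prodL w n r = 1 := by
    intro n r
    induction n with
    | zero => simp [prodL, prodR]
    | succ n ih =>
      simp only [prodL, prodR]
      rw [mul_assoc, ← mul_assoc (prodR w n r), ih, one_mul, hwsq]
  have hLc : ∀ n, Continuous (prodL w n) := by
    intro n
    induction n with
    | zero => exact continuous_const
    | succ n ih => exact ih.mul (hw n)
  have hRc : ∀ n, Continuous (prodR w n) := by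
    intro n
    induction n with
    | zero => exact continuous_const
    | succ n ih => exact (hw n).mul ih
  have hL0 : ∀ n, prodL w n 0 = 1 := by
    intro n
    induction n with
    | zero => rfl
    | succ n ih => simp [prodL, ih, hw0]
  have hR0 : ∀ n, prodR w n 0 = 1 := by
    intro n
    induction n with
    | zero => rfl
    | succ n ih => simp [prodR, ih, hw0]
  set Φ : ℕ → ℝ → M → M := fun n r x => prodL w n r * x * prodR w n r with hΦ
  have hstab : ∀ n, ∀ y ∈ S.A n, ∀ r, ∀ N, n ≤ N → Φ N r y = Φ n r y := by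
    intro n y hy r N hN
    induction N, hN using Nat.le_induction with
    | base => rfl
    | succ N hN ih =>
      rw [← ih]
      simp only [hΦ, prodL, prodR]
      have h1 := (hwc N y (S.mono hN hy) r).eq
      calc prodL w N r * w N r * y * (w N r * prodR w N r)
          = prodL w N r * ((w N r * y) * w N r) * prodR w N r := by noncomm_ring
        _ = _ := by rw [h1, mul_assoc y, hwsq, mul_one]
  have hlip : ∀ n r x y, dist (Φ n r x) (Φ n r y) ≤ dist x y := by
    intro n r x y
    rw [S.dist_sub, S.dist_sub x y]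
    have : Φ n r x - Φ n r y = prodL w n r * (x - y) * prodR w n r := by
      simp only [hΦ]; noncomm_ring
    rw [this]
    exact (S.mul_l _ _).trans (S.mul_r _ _)
  have hcau : ∀ r x, CauchySeq fun n => Φ n r x := by
    intro r x
    rw [Metric.cauchySeq_iff']
    intro ε hε
    obtain ⟨n, y, hy, hxy⟩ := S.dense x (ε / 2) (by positivity)
    refine ⟨n, fun N hN => ?_⟩
    have h1 := dist_triangle (Φ N r x) (Φ N r y) (Φ n r x)
    have h2 := hlip N r x y
    have h3 := hlip n r y x
    rw [dist_comm y x] at h3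
    rw [← hstab n y hy r N hN] at h3
    linarith
  choose a ha using fun r x => cauchySeq_tendsto_of_complete (hcau r x)
  have hA : ∀ n, ∀ y ∈ S.A n, ∀ r, a r y = Φ n r y := by
    intro n y hy r
    refine tendsto_nhds_unique (ha r y) (tendsto_const_nhds.congr' ?_)
    filter_upwards [eventually_ge_atTop n] with N hN
    exact (hstab n y hy r N hN).symm
  have halip : ∀ r x y, dist (a r x) (a r y) ≤ dist x y := fun r x y =>
    le_of_tendsto' ((ha r x).dist (ha r y)) fun n => hlip n r x y
  have hcont : Continuous (fun q : ℝ × M => a q.1 q.2) := by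
    rw [Metric.continuous_iff']
    rintro ⟨r, x⟩ ε hε
    obtain ⟨n, y, hy, hxy⟩ := S.dense x (ε / 4) (by positivity)
    have h1 : Continuous fun q : ℝ × M => Φ n q.1 y :=
      (((hLc n).comp continuous_fst).mul continuous_const).mul ((hRc n).comp continuous_fst)
    have h2 := Metric.continuous_iff'.mp h1 (r, x) (ε / 4) (by positivity)
    have h3 := Metric.continuous_iff'.mp (continuous_snd (X := ℝ) (Y := M)) (r, x) (ε / 4)
      (by positivity)
    filter_upwards [h2, h3] with q hq1 hq2
    rw [← hA n y hy, ← hA n y hy] at hq1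
    have h4 := dist_triangle4 (a q.1 q.2) (a q.1 y) (a r y) (a r x)
    have h5 := halip q.1 q.2 y
    have h6 := halip r y x
    have h7 := dist_triangle q.2 x y
    rw [dist_comm y x] at h6
    linarith
  refine ⟨fun r => ⟨⟨a r, ?_⟩, ?_⟩, hcont, ?_, ?_⟩
  · rw [hA 0 1 (Subring.one_mem _)]; simp [hΦ, prodL, prodR]
  · intro x y
    refine tendsto_nhds_unique (ha r (x * y)) ?_
    have : (fun n => Φ n r (x * y)) = fun n => Φ n r x * Φ n r y := by
      funext n
      simp only [hΦ]
      calc prodL w n r * (x * y) * prodR w n r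
          = prodL w n r * x * (prodR w n r * prodL w n r) * y * prodR w n r := by
            rw [hRL]; noncomm_ring
        _ = _ := by noncomm_ring
    rw [this]
    exact (ha r x).mul (ha r y)
  · intro x
    refine tendsto_nhds_unique (ha 0 x) ?_
    have : (fun n => Φ n 0 x) = fun _ => x := by
      funext n
      simp only [hΦ, hL0, hR0, one_mul, mul_one]
    rw [this]
    exact tendsto_const_nhds
  · intro j x
    have htok : ∀ n, ∃ q, n ≤ q ∧ (q % 2 = 0 ∨ q < 2 * n) ∧
        S.p (2 * j) * prodL w n 1 = prodL w n 1 * S.p q := by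
      intro n
      induction n with
      | zero => exact ⟨2 * j, by omega, by omega, by simp [prodL]⟩
      | succ n ih =>
        obtain ⟨q, h1, h2, h3⟩ := ih
        by_cases hq : q = n
        · refine ⟨2 * n + 1, by omega, by omega, ?_⟩
          simp only [prodL, hw1]
          rw [← mul_assoc, h3, hq, mul_assoc, S.t_p, mul_assoc]
        · refine ⟨q, by omega, by omega, ?_⟩
          simp only [prodL, hw1]
          rw [← mul_assoc, h3, mul_assoc, (S.t_p' n q hq (by omega)).eq, mul_assoc]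
    have hy : ∀ n, ∀ y ∈ S.A n, S.p (2 * j) * a 1 y = a 1 y * S.p (2 * j) := by
      intro n y hy
      obtain ⟨q, h1, -, h3⟩ := htok n
      have h4 : prodR w n 1 * S.p (2 * j) = S.p q * prodR w n 1 := by
        calc prodR w n 1 * S.p (2 * j)
            = prodR w n 1 * (S.p (2 * j) * prodL w n 1) * prodR w n 1 := by
              rw [mul_assoc, mul_assoc, hLR, mul_one]
          _ = _ := by rw [h3, ← mul_assoc, hRL, one_mul]
      rw [hA n y hy]
      simp only [hΦ]
      calc S.p (2 * j) * (prodL w n 1 * y * prodR w n 1)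
          = (S.p (2 * j) * prodL w n 1) * y * prodR w n 1 := by noncomm_ring
        _ = prodL w n 1 * (S.p q * y) * prodR w n 1 := by rw [h3]; noncomm_ring
        _ = prodL w n 1 * y * (S.p q * prodR w n 1) := by
            rw [(S.p_comm q n h1 y hy).eq]; noncomm_ring
        _ = _ := by rw [← h4]; noncomm_ring
    have hc1 : Continuous (a 1) := hcont.comp (Continuous.prodMk_right (1 : ℝ))
    have hclosed : IsClosed {x | S.p (2 * j) * a 1 x = a 1 x * S.p (2 * j)} :=
      isClosed_eq (continuous_const.mul hc1) (hc1.mul continuous_const)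
    refine hclosed.closure_subset (Metric.mem_closure_iff.mpr fun ε hε => ?_)
    obtain ⟨n, y, hy', hxy⟩ := S.dense x ε hε
    exact ⟨y, hy n y hy', hxy⟩

include S in
theorem contractible : ContractibleSpace {x : M // IsUnit x} := by
  obtain ⟨α, hα, hα0, hα1⟩ := S.exists_alpha
  obtain ⟨f, hf, hf0, hf1, hfi, hfc⟩ := S.exists_nest (c := fun j => 2 * j)
    (fun a b h => by simpa using h)
  have hfα : ∀ r x, Commute (f r) (α 1 x) := fun r x => hfc _ (fun j => hα1 j x) r
  let β : ℝ → M →* M := fun r =>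
    { toFun := fun x => α 1 x * (1 - f r) + f r
      map_one' := by simp
      map_mul' := fun x y => by
        have h1 := (hfα r y).eq
        have h2 := hfi r
        rw [map_mul]
        generalize α 1 x = u at *
        generalize α 1 y = v at *
        generalize f r = e at *
        have e1 : ∀ z : M, e * (v * z) = v * (e * z) := fun z => by
          rw [← mul_assoc, h1, mul_assoc]
        simp only [add_mul, mul_add, sub_mul, mul_sub, mul_one, mul_assoc, e1, h1, h2]
        abel }
  have hα1c : Continuous (α 1) := hα.comp (Continuous.prodMk_right (1 : ℝ))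
  let σ : C({x : M // IsUnit x}, {x : M // IsUnit x}) :=
    ⟨fun x => ⟨α 1 x, x.2.map _⟩, (hα1c.comp continuous_subtype_val).subtype_mk _⟩
  rw [contractible_iff_id_nullhomotopic]
  refine ⟨⟨1, isUnit_one⟩, ContinuousMap.Homotopic.trans (g := σ) ⟨?_⟩ ⟨?_⟩⟩
  · refine ⟨⟨fun q => ⟨α q.1 q.2, q.2.2.map _⟩, Continuous.subtype_mk ?_ _⟩, ?_, ?_⟩
    · exact hα.comp (f := fun q : unitInterval × {x : M // IsUnit x} => ((q.1 : ℝ), (q.2 : M)))
        (by fun_prop)
    · intro x; apply Subtype.ext; simp [hα0]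
    · intro x; apply Subtype.ext; simp [σ]
  · refine ⟨⟨fun q => ⟨β q.1 q.2, q.2.2.map _⟩, Continuous.subtype_mk ?_ _⟩, ?_, ?_⟩
    · change Continuous fun q : unitInterval × {x : M // IsUnit x} =>
        α 1 q.2 * (1 - f q.1) + f q.1
      fun_prop
    · intro x; apply Subtype.ext; simp [β, σ, hf0]
    · intro x; apply Subtype.ext; simp [β, hf1]

end Sys

end Pool.Agent.H373Z.AQ
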