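import Mathlib

set_option autoImplicit false

/-! The rank metric completion of the union of the matrix rings of size a power of two. -/

namespace Pool.Agent.H373Z.AQ

open Matrix

variable (F : Type) [Field F]

/-- The matrix ring of size `2 ^ n`. -/
abbrev Mat (n : ℕ) : Type := Matrix (Fin (2 ^ n)) (Fin (2 ^ n)) F

/-- The identification of two copies of `Fin (2 ^ n)`, one after the other, with
`Fin (2 ^ (n + 1))`. -/
def twoCopies (n : ℕ) : Fin (2 ^ n) ⊕ Fin (2 ^ n) ≃ Fin (2 ^ (n + 1)) :=
  finSumFinEquiv.trans (finCongr (by rw [pow_succ]; omega))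

/-- The doubling map `x ↦ diag (x, x)`. -/
def dbl (n : ℕ) : Mat F n →+* Mat F (n + 1) where
  toFun x := reindex (twoCopies n) (twoCopies n) (fromBlocks x 0 0 x)
  map_one' := by simp
  map_mul' x y := by simp [fromBlocks_multiply]
  map_zero' := by simp
  map_add' x y := by
    ext a b
    simp only [reindex_apply, submatrix_apply, Matrix.add_apply]
    generalize (twoCopies n).symm a = a'
    generalize (twoCopies n).symm b = b'
    rcases a' with a | a <;> rcases b' with b | b <;> simp

/-- The iterated doubling map. -/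
def dblLE (n m : ℕ) (h : n ≤ m) : Mat F n →+* Mat F m :=
  Nat.leRecOn (C := fun k => Mat F n →+* Mat F k) h (fun {k} g => (dbl F k).comp g)
    (RingHom.id _)

lemma dblLE_self (n : ℕ) : dblLE F n n le_rfl = RingHom.id _ := Nat.leRecOn_self _

lemma dblLE_succ (n m : ℕ) (h : n ≤ m) (h' : n ≤ m + 1) :
    dblLE F n (m + 1) h' = (dbl F m).comp (dblLE F n m h) := Nat.leRecOn_succ h _

instance : DirectedSystem (Mat F) (fun n m h => dblLE F n m h) where
  map_self n x := by rw [dblLE_self]; rfl
  map_map k j i hij hjk x := by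
    induction k, hjk using Nat.le_induction with
    | base => rw [dblLE_self]; rfl
    | succ k hjk ih =>
      rw [dblLE_succ F j k hjk, dblLE_succ F i k (hij.trans hjk)]
      simp only [RingHom.comp_apply]
      rw [ih]

/-- The union (direct limit along the doubling maps) of the matrix rings. -/
def Lim : Type := DirectLimit (Mat F) (dblLE F)

noncomputable instance : Ring (Lim F) :=
  inferInstanceAs (Ring (DirectLimit (Mat F) (dblLE F)))

variable {F}

lemma finrank_prod_sub {V W : Type} [AddCommGroup V] [Module F V] [AddCommGroup W] [Module F W]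
    [FiniteDimensional F V] [FiniteDimensional F W] (p : Submodule F V) (q : Submodule F W) :
    Module.finrank F (p.prod q) = Module.finrank F p + Module.finrank F q := by
  have e : (p.prod q) ≃ₗ[F] p × q :=
    { toFun := fun x => (⟨x.1.1, x.2.1⟩, ⟨x.1.2, x.2.2⟩)
      invFun := fun x => ⟨(x.1.1, x.2.1), x.1.2, x.2.2⟩
      map_add' := fun _ _ => rfl
      map_smul' := fun _ _ => rfl
      left_inv := fun _ => rfl
      right_inv := fun _ => rfl }
  rw [e.finrank_eq, Module.finrank_prod]

lemma rank_blocks {m : Type} [Fintype m] [DecidableEq m] (x y : Matrix m m F) :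
    (fromBlocks x 0 0 y).rank = x.rank + y.rank := by
  have h1 : LinearMap.range (fromBlocks x 0 0 y).mulVecLin =
      (LinearMap.range (x.mulVecLin.prodMap y.mulVecLin)).map
        (LinearEquiv.sumArrowLequivProdArrow m m F F).symm.toLinearMap := by
    rw [← LinearMap.range_comp, ← LinearMap.range_comp_of_range_eq_top _
      (LinearEquiv.sumArrowLequivProdArrow m m F F).symm.range]
    congr 1
    apply LinearMap.ext
    rintro ⟨u, v⟩
    ext (a | a) <;> simp [mulVec, dotProduct]
  rw [Matrix.rank, h1, LinearEquiv.finrank_map_eq, LinearMap.range_prodMap, finrank_prod_sub]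
  rfl

lemma rank_dbl (n : ℕ) (x : Mat F n) : (dbl F n x).rank = 2 * x.rank := by
  change (reindex _ _ _).rank = _
  rw [rank_reindex, rank_blocks, two_mul]

/-- The normalised rank of a matrix of size `2 ^ n`. -/
noncomputable def nrank (n : ℕ) (x : Mat F n) : ℝ := (x.rank : ℝ) / 2 ^ n

lemma nrank_dblLE (n m : ℕ) (h : n ≤ m) (x : Mat F n) :
    nrank n x = nrank m (dblLE F n m h x) := by
  induction m, h using Nat.le_induction with
  | base => rw [dblLE_self]; rfl
  | succ k hk ih =>
    rw [dblLE_succ F n k hk, RingHom.comp_apply, ih, nrank, nrank, rank_dbl, pow_succ]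
    push_cast
    field_simp

/-- The normalised rank on the union. -/
noncomputable def rk (x : Lim F) : ℝ :=
  DirectLimit.lift (dblLE F) nrank nrank_dblLE x

/-- The inclusion of the matrix ring of size `2 ^ n` in the union. -/
noncomputable def incl (n : ℕ) : Mat F n →+* Lim F := DirectLimit.Ring.of (Mat F) (dblLE F) n

lemma rk_incl (n : ℕ) (x : Mat F n) : rk (incl n x) = nrank n x := rfl

lemma exists_incl₂ (x y : Lim F) : ∃ n a b, x = incl n a ∧ y = incl n b :=
  DirectLimit.exists_eq_mk₂ (dblLE F) x y

lemma mrank_add_le {m : Type} [Fintype m] (x y : Matrix m m F) :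
    (x + y).rank ≤ x.rank + y.rank := by
  refine le_trans (Submodule.finrank_mono ?_)
    (Submodule.finrank_add_le_finrank_add_finrank (LinearMap.range x.mulVecLin)
      (LinearMap.range y.mulVecLin))
  rintro _ ⟨v, rfl⟩
  rw [mulVecLin_add, LinearMap.add_apply]
  exact Submodule.add_mem_sup ⟨v, rfl⟩ ⟨v, rfl⟩

lemma rk_add_le (x y : Lim F) : rk (x + y) ≤ rk x + rk y := by
  obtain ⟨n, a, b, rfl, rfl⟩ := exists_incl₂ x y
  rw [← map_add, rk_incl, rk_incl, rk_incl, nrank, nrank, nrank, ← add_div]
  gcongr
  exact_mod_cast mrank_add_le a b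

lemma rk_mul_le_left (x y : Lim F) : rk (x * y) ≤ rk x := by
  obtain ⟨n, a, b, rfl, rfl⟩ := exists_incl₂ x y
  rw [← map_mul, rk_incl, rk_incl, nrank, nrank]
  gcongr
  exact rank_mul_le_left a b

lemma rk_mul_le_right (x y : Lim F) : rk (x * y) ≤ rk y := by
  obtain ⟨n, a, b, rfl, rfl⟩ := exists_incl₂ x y
  rw [← map_mul, rk_incl, rk_incl, nrank, nrank]
  gcongr
  exact rank_mul_le_right a b

lemma rk_zero : rk (0 : Lim F) = 0 := by
  rw [← map_zero (incl 0), rk_incl, nrank]; simp

lemma rk_neg (x : Lim F) : rk (-x) = rk x := by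
  refine le_antisymm ?_ ?_
  · simpa using rk_mul_le_left x (-1)
  · simpa using rk_mul_le_left (-x) (-1)

lemma eq_zero_of_rk (x : Lim F) (h : rk x = 0) : x = 0 := by
  obtain ⟨n, a, -, rfl, -⟩ := exists_incl₂ x x
  rw [rk_incl, nrank, div_eq_zero_iff] at h
  have h1 : a.rank = 0 := by
    rcases h with h | h
    · exact_mod_cast h
    · exact absurd h (by positivity)
  have h2 : a.mulVecLin = 0 := by
    rwa [Matrix.rank, Submodule.finrank_eq_zero, LinearMap.range_eq_bot] at h1
  have h3 : a = 0 := by
    ext i j
    have := congrFun (LinearMap.congr_fun h2 (Pi.single j 1)) i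
    simpa using this
  rw [h3, map_zero]

/-- The normalised rank metric `d (x, y) = rk (x - y)` on the union. -/
noncomputable instance : MetricSpace (Lim F) where
  dist x y := rk (x - y)
  dist_self x := by rw [sub_self, rk_zero]
  dist_comm x y := by rw [← rk_neg, neg_sub]
  dist_triangle x y z := by
    have := rk_add_le (x - y) (y - z)
    rwa [sub_add_sub_cancel] at this
  eq_of_dist_eq_zero {x y} h := sub_eq_zero.mp (eq_zero_of_rk _ h)

lemma dist_lim (x y : Lim F) : dist x y = rk (x - y) := rfl

lemma lipschitz_aux (f : Lim F × Lim F → Lim F)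
    (h : ∀ p q, rk (f p - f q) ≤ rk (p.1 - q.1) + rk (p.2 - q.2)) : LipschitzWith 2 f := by
  refine LipschitzWith.of_dist_le_mul fun p q => (h p q).trans ?_
  have h1 : dist p.1 q.1 ≤ dist p q := le_max_left _ _
  have h2 : dist p.2 q.2 ≤ dist p q := le_max_right _ _
  rw [dist_lim] at h1 h2
  push_cast
  linarith

instance : IsUniformAddGroup (Lim F) where
  uniformContinuous_sub := (lipschitz_aux (fun p => p.1 - p.2) fun p q => by
    have := rk_add_le (p.1 - q.1) (-(p.2 - q.2))
    rw [rk_neg] at this
    convert this using 2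
    abel).uniformContinuous

instance : IsTopologicalRing (Lim F) where
  continuous_mul := (lipschitz_aux (fun p => p.1 * p.2) fun p q => by
    have h1 := rk_add_le ((p.1 - q.1) * p.2) (q.1 * (p.2 - q.2))
    have h2 := rk_mul_le_left (p.1 - q.1) p.2
    have h3 := rk_mul_le_right q.1 (p.2 - q.2)
    have h4 : p.1 * p.2 - q.1 * q.2 = (p.1 - q.1) * p.2 + q.1 * (p.2 - q.2) := by noncomm_ring
    rw [h4]
    linarith).continuous

variable (F)

/-- The ring `M (F)`: the metric completion of the union. -/
abbrev MF : Type := UniformSpace.Completion (Lim F)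

/-- The invertible elements of `M (F)`, with the topology given by the metric. -/
abbrev AF : Type := {x : MF F // IsUnit x}

end Pool.Agent.H373Z.AQ
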