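import Pool.Agent.H373Z.AQ.Defs
import Pool.Agent.H373Z.AQ.Abstract

set_option autoImplicit false

namespace Pool.Agent.H373Z.AQ

open Matrix UniformSpace

variable {F : Type} [Field F]

/-- bit strings -/
abbrev B (n : ℕ) : Type := Fin n → Bool

/-- two copies of bit strings -/
def bitSum (n : ℕ) : B n ⊕ B n ≃ B (n + 1) where
  toFun := Sum.elim (fun a => Fin.snoc a false) (fun a => Fin.snoc a true)
  invFun a := if a (Fin.last n) then Sum.inr (Fin.init a) else Sum.inl (Fin.init a)
  left_inv := by rintro (a | a) <;> simp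
  right_inv a := by
    by_cases h : a (Fin.last n) = true
    · simp only [h, if_true, Sum.elim_inr]
      rw [← h]; exact Fin.snoc_init_self a
    · have h' : a (Fin.last n) = false := by simpa using h
      simp only [h', Bool.false_eq_true, if_false, Sum.elim_inl]
      rw [← h']; exact Fin.snoc_init_self a

/-- binary digits -/
def bits : (n : ℕ) → Fin (2 ^ n) ≃ B n
  | 0 => Equiv.ofUnique (Fin 1) (B 0)
  | n + 1 => (twoCopies n).symm.trans ((Equiv.sumCongr (bits n) (bits n)).trans (bitSum n))

/-- the embedding of matrices indexed by bit strings -/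
noncomputable def io (n : ℕ) : Matrix (B n) (B n) F →+* MF F :=
  (Completion.coeRingHom.comp (incl n)).comp
    (reindexAlgEquiv F F (bits n).symm).toRingEquiv.toRingHom

lemma io_apply (n : ℕ) (x : Matrix (B n) (B n) F) :
    io n x = ((incl n (x.submatrix (bits n) (bits n)) : Lim F) : MF F) := rfl

/-- closed form of the iterated doubling -/
def up {n N : ℕ} (h : n ≤ N) (x : Matrix (B n) (B n) F) : Matrix (B N) (B N) F :=
  Matrix.of fun a b => if ∀ i : Fin N, n ≤ i → a i = b i then
    x (a ∘ Fin.castLE h) (b ∘ Fin.castLE h) else 0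

lemma up_self {n : ℕ} (x : Matrix (B n) (B n) F) : up le_rfl x = x := by
  ext a b
  simp only [up, of_apply]
  rw [if_pos (fun i hi => absurd i.2 (by omega))]
  rfl

lemma up_snoc {n N : ℕ} (h : n ≤ N) (x : Matrix (B n) (B n) F) (a b : B N) (u v : Bool) :
    up (h.trans (Nat.le_succ N)) x (Fin.snoc a u) (Fin.snoc b v) =
      if u = v then up h x a b else 0 := by
  have h1 : ∀ (a : B N) (u : Bool), (Fin.snoc a u : B (N + 1)) ∘
      Fin.castLE (h.trans (Nat.le_succ N)) = a ∘ Fin.castLE h := by
    intro a u
    funext i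
    have : Fin.castLE (h.trans (Nat.le_succ N)) i = (Fin.castLE h i).castSucc := rfl
    simp only [Function.comp_apply, this, Fin.snoc_castSucc]
  simp only [up, of_apply, h1, Fin.forall_fin_succ', Fin.snoc_castSucc, Fin.snoc_last,
    Fin.val_castSucc, Fin.val_last]
  by_cases huv : u = v <;> simp [huv, h]

lemma io_up {n N : ℕ} (h : n ≤ N) (x : Matrix (B n) (B n) F) : io N (up h x) = io n x := by
  induction N, h using Nat.le_induction with
  | base => rw [up_self]
  | succ N h ih =>
    rw [← ih, io_apply, io_apply]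
    congr 1
    have h1 : (up (h.trans (Nat.le_succ N)) x).submatrix (bits (N + 1)) (bits (N + 1)) =
        dblLE F N (N + 1) (Nat.le_succ N) ((up h x).submatrix (bits N) (bits N)) := by
      rw [dblLE_succ F N N le_rfl, dblLE_self]
      ext a b
      obtain ⟨a, rfl⟩ := (twoCopies N).surjective a
      obtain ⟨b, rfl⟩ := (twoCopies N).surjective b
      change _ = reindex (twoCopies N) (twoCopies N)
        (fromBlocks ((up h x).submatrix (bits N) (bits N)) 0 0
          ((up h x).submatrix (bits N) (bits N))) _ _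
      rcases a with a | a <;> rcases b with b | b <;>
        simp [bits, bitSum, up_snoc h]
    rw [h1]
    exact DirectLimit.Ring.of_f _ _

lemma dist_io (n : ℕ) (x : Matrix (B n) (B n) F) :
    dist (io n x) 0 = (x.rank : ℝ) / 2 ^ n := by
  rw [io_apply, ← Completion.coe_zero, Completion.dist_eq, dist_lim, sub_zero, rk_incl, nrank,
    rank_submatrix]

lemma io_inj (n : ℕ) : Function.Injective (io (F := F) n) := by
  rw [injective_iff_map_eq_zero]
  intro x hx
  have h := dist_io n x
  rw [hx, dist_self, eq_comm, div_eq_zero_iff] at h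
  have h1 : x.rank = 0 := by
    rcases h with h | h
    · exact_mod_cast h
    · exact absurd h (by positivity)
  have h2 : x.mulVecLin = 0 := by
    rwa [Matrix.rank, Submodule.finrank_eq_zero, LinearMap.range_eq_bot] at h1
  ext i j
  have := congrFun (LinearMap.congr_fun h2 (Pi.single j 1)) i
  simpa using this

lemma rank_split {m : Type} [Fintype m] [DecidableEq m] (e z : Matrix m m F) (he : e * e = e)
    (hc : e * z = z * e) : (e * z).rank + ((1 - e) * z).rank ≤ z.rank := by
  have h1 := Submodule.finrank_sup_add_finrank_inf_eq (LinearMap.range (e * z).mulVecLin)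
    (LinearMap.range ((1 - e) * z).mulVecLin)
  have h2 : LinearMap.range (e * z).mulVecLin ⊓ LinearMap.range ((1 - e) * z).mulVecLin = ⊥ := by
    rw [eq_bot_iff]
    rintro v ⟨⟨a, ha⟩, ⟨b, hb⟩⟩
    rw [mulVecLin_apply] at ha hb
    have h3 : e *ᵥ v = v := by rw [← ha, mulVec_mulVec, ← mul_assoc, he]
    have h4 : e *ᵥ v = 0 := by
      rw [← hb, mulVec_mulVec, ← mul_assoc, mul_sub, he, mul_one, sub_self, zero_mul, zero_mulVec]
    rw [Submodule.mem_bot, ← h3, h4]
  have h3 : LinearMap.range (e * z).mulVecLin ⊔ LinearMap.range ((1 - e) * z).mulVecLin ≤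
      LinearMap.range z.mulVecLin := by
    refine sup_le ?_ ?_
    · rw [hc, mulVecLin_mul]; exact LinearMap.range_comp_le_range _ _
    · have : (1 - e) * z = z * (1 - e) := by rw [sub_mul, mul_sub, hc, one_mul, mul_one]
      rw [this, mulVecLin_mul]; exact LinearMap.range_comp_le_range _ _
  have h4 := Submodule.finrank_mono h3
  rw [h2, finrank_bot] at h1
  unfold Matrix.rank
  omega

/-- the coin at a coordinate -/
def D {N : ℕ} (i : Fin N) : Matrix (B N) (B N) F := diagonal fun a => if a i then 1 else 0

/-- permutation matrix -/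
def P {N : ℕ} (g : B N → B N) : Matrix (B N) (B N) F :=
  Matrix.of fun a b => if b = g a then 1 else 0

lemma P_mul {N : ℕ} (g : B N → B N) (y : Matrix (B N) (B N) F) (a b : B N) :
    (P g * y : Matrix (B N) (B N) F) a b = y (g a) b := by
  simp [P, mul_apply]

lemma mul_P {N : ℕ} (g : B N → B N) (hg : Function.Involutive g) (y : Matrix (B N) (B N) F)
    (a b : B N) : (y * P g : Matrix (B N) (B N) F) a b = y a (g b) := by
  have : ∀ c, b = g c ↔ c = g b := fun c =>
    ⟨fun h => by rw [h, hg], fun h => by rw [h, hg]⟩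
  simp [P, mul_apply, this]

lemma P_sq {N : ℕ} (g : B N → B N) (hg : Function.Involutive g) :
    (P g * P g : Matrix (B N) (B N) F) = 1 := by
  ext a b
  rw [P_mul]
  simp [P, hg a, one_apply, eq_comm]

lemma up_D {n N : ℕ} (h : n ≤ N) (i : Fin n) : up h (D i) = (D (Fin.castLE h i) : Matrix _ _ F) := by
  ext a b
  simp only [up, D, of_apply, diagonal_apply, Function.comp_apply]
  by_cases hab : a = b
  · subst hab; simp
  · rw [if_neg hab]
    split_ifs with h1 h2
    · exfalso
      apply hab
      funext j
      by_cases hj : n ≤ j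
      · exact h1 j hj
      · exact congrFun h2 ⟨j, by omega⟩
    all_goals rfl

lemma D_comm_up {n N : ℕ} (h : n ≤ N) (i : Fin N) (hi : n ≤ i) (x : Matrix (B n) (B n) F) :
    D i * up h x = up h x * D i := by
  ext a b
  simp only [D, diagonal_mul, mul_diagonal, up, of_apply]
  by_cases h1 : ∀ i : Fin N, n ≤ i → a i = b i
  · rw [h1 i hi, mul_comm]
  · simp [h1]

/-- flip a bit -/
def flipB {N : ℕ} (i : Fin N) (a : B N) : B N := Function.update a i (!a i)

lemma flipB_inv {N : ℕ} (i : Fin N) : Function.Involutive (flipB i) := by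
  intro a; simp [flipB]

/-- swap two bits -/
def swapB {N : ℕ} (i j : Fin N) (a : B N) : B N := a ∘ Equiv.swap i j

lemma swapB_inv {N : ℕ} (i j : Fin N) : Function.Involutive (swapB i j) := by
  intro a; funext k; simp [swapB]

lemma D_P_swap {N : ℕ} (i j k : Fin N) :
    (D k * P (swapB i j) : Matrix _ _ F) = P (swapB i j) * D (Equiv.swap i j k) := by
  ext a b
  simp only [D, diagonal_mul, mul_diagonal, P, of_apply]
  by_cases h : b = swapB i j a
  · subst h; simp [swapB]
  · simp [h]

lemma P_swap_comm_up {n N : ℕ} (h : n ≤ N) (i j : Fin N) (hi : n ≤ i) (hj : n ≤ j)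
    (x : Matrix (B n) (B n) F) : P (swapB i j) * up h x = up h x * P (swapB i j) := by
  ext a b
  rw [P_mul, mul_P _ (swapB_inv i j)]
  have h1 : ∀ a : B N, swapB i j a ∘ Fin.castLE h = a ∘ Fin.castLE h := by
    intro a
    funext k
    simp only [swapB, Function.comp_apply]
    rw [Equiv.swap_apply_of_ne_of_ne]
    · intro e; rw [← e] at hi; exact absurd k.2 (not_lt.mpr hi)
    · intro e; rw [← e] at hj; exact absurd k.2 (not_lt.mpr hj)
  have h2 : ∀ k : Fin N, n ≤ k → n ≤ (Equiv.swap i j k : Fin N) := by
    intro k hk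
    rw [Equiv.swap_apply_def]
    split_ifs <;> assumption
  simp only [up, of_apply, h1]
  congr 1
  apply propext
  constructor
  · intro H k hk
    have := H _ (h2 k hk)
    simpa [swapB] using this
  · intro H k hk
    have := H _ (h2 k hk)
    simpa [swapB] using this

lemma io_D {N : ℕ} (k : ℕ) (h : k < N) :
    io (k + 1) (D (Fin.last k)) = (io N (D ⟨k, h⟩) : MF F) := by
  rw [← io_up (show k + 1 ≤ N from h), up_D]
  rfl

/-- the system -/
noncomputable def sys : Sys (MF F) where
  A n := (io n).range
  p k := io (k + 1) (D (Fin.last k))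
  s k := io (k + 1) (P (flipB (Fin.last k)))
  t n := io (2 * n + 2) (P (swapB ⟨n, by omega⟩ ⟨2 * n + 1, by omega⟩))
  dist_sub x y := by
    refine Completion.induction_on₂ x y (isClosed_eq (by fun_prop) (by fun_prop)) fun a b => ?_
    rw [← Completion.coe_sub, ← Completion.coe_zero, Completion.dist_eq, Completion.dist_eq,
      dist_lim, dist_lim, sub_zero]
  add_le x y := by
    refine Completion.induction_on₂ x y (isClosed_le (by fun_prop) (by fun_prop)) fun a b => ?_
    rw [← Completion.coe_add, ← Completion.coe_zero, Completion.dist_eq, Completion.dist_eq,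
      Completion.dist_eq, dist_lim, dist_lim, dist_lim, sub_zero, sub_zero, sub_zero]
    exact rk_add_le a b
  mul_l x y := by
    refine Completion.induction_on₂ x y (isClosed_le (by fun_prop) (by fun_prop)) fun a b => ?_
    rw [← Completion.coe_mul, ← Completion.coe_zero, Completion.dist_eq, Completion.dist_eq,
      dist_lim, dist_lim, sub_zero, sub_zero]
    exact rk_mul_le_left a b
  mul_r x y := by
    refine Completion.induction_on₂ x y (isClosed_le (by fun_prop) (by fun_prop)) fun a b => ?_
    rw [← Completion.coe_mul, ← Completion.coe_zero, Completion.dist_eq, Completion.dist_eq,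
      dist_lim, dist_lim, sub_zero, sub_zero]
    exact rk_mul_le_right a b
  one_le := by
    rw [← map_one (io 0), dist_io]; simp
  mono n N h := by
    rintro _ ⟨x, rfl⟩
    exact ⟨up h x, io_up h x⟩
  dense x ε hε := by
    obtain ⟨a, ha⟩ := Metric.denseRange_iff.mp (Completion.denseRange_coe (α := Lim F)) x ε hε
    obtain ⟨n, b, -, rfl, -⟩ := exists_incl₂ a a
    refine ⟨n, _, ⟨b.submatrix (bits n).symm (bits n).symm, rfl⟩, ?_⟩
    rw [io_apply]
    simpa using ha
  p_idem k := by
    rw [← map_mul]
    congr 1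
    simp only [D, diagonal_mul_diagonal]
    congr 1
    funext a
    split_ifs <;> simp
  p_mem k := ⟨_, rfl⟩
  p_comm k n h := by
    rintro _ ⟨x, rfl⟩
    rw [← io_up (show n ≤ k + 1 by omega)]
    exact Commute.map (D_comm_up _ _ (by simpa using h) x) _
  s_mem k := ⟨_, rfl⟩
  s_sq k := by rw [← map_mul, P_sq _ (flipB_inv _), map_one]
  s_p k := by
    rw [← map_mul, ← map_mul, ← map_one (io (k + 1)), ← map_sub]
    congr 1
    ext a b
    rw [mul_P _ (flipB_inv _), P_mul]
    simp only [D, diagonal_apply, Matrix.sub_apply, one_apply, (flipB_inv _).injective.eq_iff]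
    by_cases hab : a = b
    · subst hab
      by_cases h : a (Fin.last k) = true <;> simp [flipB, h]
    · simp [hab]
  t_mem n := ⟨_, rfl⟩
  t_sq n := by rw [← map_mul, P_sq _ (swapB_inv _ _), map_one]
  t_comm n := by
    rintro _ ⟨x, rfl⟩
    rw [← io_up (show n ≤ 2 * n + 2 by omega) x]
    have h : n ≤ 2 * n + 1 := by omega
    exact Commute.map (P_swap_comm_up (show n ≤ 2 * n + 2 by omega) ⟨n, by omega⟩
      ⟨2 * n + 1, by omega⟩ le_rfl h x) _
  t_p n := by
    rw [io_D n (show n < 2 * n + 2 by omega), io_D (2 * n + 1) (show 2 * n + 1 < 2 * n + 2 by omega),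
      ← map_mul, ← map_mul, D_P_swap, Equiv.swap_apply_left]
  t_p' n q h1 h2 := by
    by_cases hq : q < 2 * n + 2
    · rw [io_D q hq]
      refine Commute.map ?_ _
      change _ * _ = _ * _
      rw [D_P_swap, Equiv.swap_apply_of_ne_of_ne]
      · intro e; exact h1 (congrArg Fin.val e)
      · intro e; exact h2 (congrArg Fin.val e)
    · rw [← io_up (show 2 * n + 2 ≤ q + 1 by omega)]
      exact Commute.map (D_comm_up _ _ (by simp only [Fin.val_last]; omega) _) _
  split n := by
    rintro _ ⟨e, rfl⟩ _ ⟨z, rfl⟩ he hc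
    have he' : e * e = e := io_inj n (by rw [map_mul, he])
    have hc' : e * z = z * e := io_inj n (by rw [map_mul, map_mul, hc.eq])
    rw [← map_one (io n), ← map_sub, ← map_mul, ← map_mul, dist_io, dist_io, dist_io, ← add_div]
    gcongr
    exact_mod_cast rank_split e z he' hc'

theorem contractible_AF (F : Type) [Field F] : ContractibleSpace (AF F) :=
  (sys (F := F)).contractible

end Pool.Agent.H373Z.AQ
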